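import Mathlib

namespace Pool.Agent.Results.MP_f0defb_al.NotInjective

universe u

/-- The map `r(x,y) = (λ_x(y), ρ_y(x))`. -/
def rmap {Y : Type u} (lam rho : Y → Equiv.Perm Y) (p : Y × Y) : Y × Y :=
  (lam p.1 p.2, rho p.2 p.1)

/-- `r × id` on `Y³`. -/
def r12 {Y : Type u} (r : Y × Y → Y × Y) (t : Y × Y × Y) : Y × Y × Y :=
  ((r (t.1, t.2.1)).1, (r (t.1, t.2.1)).2, t.2.2)

/-- `id × r` on `Y³`. -/
def r23 {Y : Type u} (r : Y × Y → Y × Y) (t : Y × Y × Y) : Y × Y × Y :=
  (t.1, r t.2)

/-- A non-degenerate set-theoretic solution of the Yang-Baxter equation on `Y`. -/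
structure Sol (Y : Type u) where
  lam : Y → Equiv.Perm Y
  rho : Y → Equiv.Perm Y
  braid : r12 (rmap lam rho) ∘ r23 (rmap lam rho) ∘ r12 (rmap lam rho) =
    r23 (rmap lam rho) ∘ r12 (rmap lam rho) ∘ r23 (rmap lam rho)

/-- `f` is a morphism of solutions: `(f × f) ∘ r = s ∘ (f × f)`. -/
def IsMorphism {Y Z : Type u} (S : Sol Y) (T : Sol Z) (f : Y → Z) : Prop :=
  Prod.map f f ∘ rmap S.lam S.rho = rmap T.lam T.rho ∘ Prod.map f f

/-- `(Y, S)` with `i : X → Y` is a free solution on `X`. -/
def IsFree {X Y : Type u} (S : Sol Y) (i : X → Y) : Prop :=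
  ∀ (Z : Type u) (T : Sol Z) (φ : X → Z), ∃! f : Y → Z, IsMorphism S T f ∧ f ∘ i = φ

/-- The defining relators `x y (λ_x(y) ρ_y(x))⁻¹` of the structure group. -/
def rels {Y : Type u} (S : Sol Y) : Set (FreeGroup Y) :=
  {w | ∃ x y : Y, w = FreeGroup.of x * FreeGroup.of y *
    (FreeGroup.of (S.lam x y) * FreeGroup.of (S.rho y x))⁻¹}

/-- The canonical map of a solution to its structure group. -/
def toStructureGroup {Y : Type u} (S : Sol Y) (y : Y) : PresentedGroup (rels S) :=
  PresentedGroup.of y

lemma isMorphism_iff {Y Z : Type u} (S : Sol Y) (T : Sol Z) (f : Y → Z) :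
    IsMorphism S T f ↔ (∀ x y, f (S.lam x y) = T.lam (f x) (f y)) ∧
      ∀ x y, f (S.rho y x) = T.rho (f y) (f x) := by
  unfold IsMorphism
  constructor
  · intro h
    refine ⟨fun x y => ?_, fun x y => ?_⟩
    · exact congrArg Prod.fst (congrFun h (x, y))
    · exact congrArg Prod.snd (congrFun h (x, y))
  · rintro ⟨h1, h2⟩
    funext ⟨x, y⟩
    exact Prod.ext (h1 x y) (h2 x y)

lemma braid_iff {Y : Type u} (lam rho : Y → Equiv.Perm Y) :
    (r12 (rmap lam rho) ∘ r23 (rmap lam rho) ∘ r12 (rmap lam rho) =
      r23 (rmap lam rho) ∘ r12 (rmap lam rho) ∘ r23 (rmap lam rho)) ↔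
    ∀ x y z, lam (lam x y) (lam (rho y x) z) = lam x (lam y z) ∧
      rho (lam (rho y x) z) (lam x y) = lam (rho (lam y z) x) (rho z y) ∧
      rho z (rho y x) = rho (rho z y) (rho (lam y z) x) := by
  constructor
  · intro h x y z
    have := congrFun h (x, y, z)
    simpa [r12, r23, rmap, Prod.ext_iff] using this
  · intro h
    funext ⟨x, y, z⟩
    simpa [r12, r23, rmap, Prod.ext_iff] using h x y z

inductive Tm (X : Type u) : Type u
  | gen : X → Tm X
  | la : Tm X → Tm X → Tm X
  | li : Tm X → Tm X → Tm X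
  | ro : Tm X → Tm X → Tm X
  | ri : Tm X → Tm X → Tm X

def ev {X Z : Type u} (T : Sol Z) (φ : X → Z) : Tm X → Z
  | .gen x => φ x
  | .la a b => T.lam (ev T φ a) (ev T φ b)
  | .li a b => (T.lam (ev T φ a)).symm (ev T φ b)
  | .ro a b => T.rho (ev T φ a) (ev T φ b)
  | .ri a b => (T.rho (ev T φ a)).symm (ev T φ b)

def st (X : Type u) : Setoid (Tm X) where
  r a b := ∀ (Z : Type u) (T : Sol Z) (φ : X → Z), ev T φ a = ev T φ b
  iseqv := ⟨fun _ _ _ _ => rfl, fun h Z T φ => (h Z T φ).symm,
    fun h1 h2 Z T φ => (h1 Z T φ).trans (h2 Z T φ)⟩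

abbrev F (X : Type u) : Type u := Quotient (st X)

def qla {X : Type u} : F X → F X → F X :=
  Quotient.map₂ Tm.la (fun _ _ h1 _ _ h2 Z T φ => by simp only [ev, h1 Z T φ, h2 Z T φ])
def qli {X : Type u} : F X → F X → F X :=
  Quotient.map₂ Tm.li (fun _ _ h1 _ _ h2 Z T φ => by simp only [ev, h1 Z T φ, h2 Z T φ])
def qro {X : Type u} : F X → F X → F X :=
  Quotient.map₂ Tm.ro (fun _ _ h1 _ _ h2 Z T φ => by simp only [ev, h1 Z T φ, h2 Z T φ])
def qri {X : Type u} : F X → F X → F X :=
  Quotient.map₂ Tm.ri (fun _ _ h1 _ _ h2 Z T φ => by simp only [ev, h1 Z T φ, h2 Z T φ])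

def flam {X : Type u} (a : F X) : Equiv.Perm (F X) where
  toFun := qla a
  invFun := qli a
  left_inv b := by
    induction a using Quotient.inductionOn
    induction b using Quotient.inductionOn
    exact Quotient.sound (fun Z T φ => by simp [ev])
  right_inv b := by
    induction a using Quotient.inductionOn
    induction b using Quotient.inductionOn
    exact Quotient.sound (fun Z T φ => by simp [ev])

def frho {X : Type u} (a : F X) : Equiv.Perm (F X) where
  toFun := qro a
  invFun := qri a
  left_inv b := by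
    induction a using Quotient.inductionOn
    induction b using Quotient.inductionOn
    exact Quotient.sound (fun Z T φ => by simp [ev])
  right_inv b := by
    induction a using Quotient.inductionOn
    induction b using Quotient.inductionOn
    exact Quotient.sound (fun Z T φ => by simp [ev])

def fsol (X : Type u) : Sol (F X) where
  lam := flam
  rho := frho
  braid := by
    rw [braid_iff]
    intro x y z
    induction x using Quotient.inductionOn
    induction y using Quotient.inductionOn
    induction z using Quotient.inductionOn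
    refine ⟨Quotient.sound (fun Z T φ => ?_), Quotient.sound (fun Z T φ => ?_),
      Quotient.sound (fun Z T φ => ?_)⟩
    · exact ((braid_iff _ _).1 T.braid _ _ _).1
    · exact ((braid_iff _ _).1 T.braid _ _ _).2.1
    · exact ((braid_iff _ _).1 T.braid _ _ _).2.2

lemma mor_lam_symm {Y Z : Type u} {S : Sol Y} {T : Sol Z} {f : Y → Z} (h : IsMorphism S T f)
    (x y : Y) : f ((S.lam x).symm y) = (T.lam (f x)).symm (f y) := by
  rw [Equiv.eq_symm_apply, ← ((isMorphism_iff S T f).1 h).1, Equiv.apply_symm_apply]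

lemma mor_rho_symm {Y Z : Type u} {S : Sol Y} {T : Sol Z} {f : Y → Z} (h : IsMorphism S T f)
    (x y : Y) : f ((S.rho x).symm y) = (T.rho (f x)).symm (f y) := by
  rw [Equiv.eq_symm_apply, ← ((isMorphism_iff S T f).1 h).2, Equiv.apply_symm_apply]

lemma fsol_free (X : Type u) : IsFree (fsol X) (fun x => (Quotient.mk (st X) (Tm.gen x))) := by
  intro Z T φ
  refine ⟨Quotient.lift (ev T φ) (fun a b h => h Z T φ), ⟨?_, rfl⟩, ?_⟩
  · rw [isMorphism_iff]
    constructor
    · intro x y
      induction x using Quotient.inductionOn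
      induction y using Quotient.inductionOn
      rfl
    · intro x y
      induction x using Quotient.inductionOn
      induction y using Quotient.inductionOn
      rfl
  · rintro f ⟨hf, hi⟩
    funext a
    induction a using Quotient.inductionOn with
    | h a =>
      show f (Quotient.mk (st X) a) = ev T φ a
      induction a with
      | gen x => exact congrFun hi x
      | la a b iha ihb =>
        have := ((isMorphism_iff _ _ f).1 hf).1 (Quotient.mk (st X) a) (Quotient.mk (st X) b)
        rw [iha, ihb] at this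
        exact this
      | li a b iha ihb =>
        have := mor_lam_symm hf (Quotient.mk (st X) a) (Quotient.mk (st X) b)
        rw [iha, ihb] at this
        exact this
      | ro a b iha ihb =>
        have := ((isMorphism_iff _ _ f).1 hf).2 (Quotient.mk (st X) b) (Quotient.mk (st X) a)
        rw [iha, ihb] at this
        exact this
      | ri a b iha ihb =>
        have := mor_rho_symm hf (Quotient.mk (st X) a) (Quotient.mk (st X) b)
        rw [iha, ihb] at this
        exact this

def flip2 : Equiv.Perm (ULift.{u} Bool) where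
  toFun b := ⟨!b.down⟩
  invFun b := ⟨!b.down⟩
  left_inv b := by simp
  right_inv b := by simp

def two : Sol (ULift.{u} Bool) where
  lam _ := 1
  rho _ := flip2
  braid := by
    rw [braid_iff]
    intro x y z
    simp

theorem result (X : Type u) [Nonempty X] :
    (∃ (Y : Type u) (S : Sol Y) (i : X → Y), IsFree S i) ∧
    ∀ (Y : Type u) (S : Sol Y) (i : X → Y), IsFree S i →
      ¬ Function.Injective (toStructureGroup S) := by
  refine ⟨⟨_, _, _, fsol_free X⟩, ?_⟩
  intro Y S i hfree hinj
  obtain ⟨x0⟩ := ‹Nonempty X›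
  obtain ⟨f, ⟨hf, -⟩, -⟩ := hfree _ two (fun _ => ⟨true⟩)
  set x := i x0
  set a := (S.lam x).symm x with ha
  have hrel : toStructureGroup S x * toStructureGroup S a =
      toStructureGroup S (S.lam x a) * toStructureGroup S (S.rho a x) := by
    have hm : FreeGroup.of x * FreeGroup.of a *
        (FreeGroup.of (S.lam x a) * FreeGroup.of (S.rho a x))⁻¹ ∈ rels S := ⟨x, a, rfl⟩
    have := PresentedGroup.one_of_mem hm
    rw [map_mul, map_inv, mul_inv_eq_one, map_mul, map_mul] at this
    exact this
  have hx : S.lam x a = x := by simp [ha]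
  rw [hx] at hrel
  have hab : a = S.rho a x := hinj (mul_left_cancel hrel)
  have h1 : f a = f x := by
    rw [ha, mor_lam_symm hf]
    rfl
  have h2 : f (S.rho a x) = flip2 (f x) := ((isMorphism_iff _ _ f).1 hf).2 x a
  rw [← hab, h1] at h2
  have h3 := congrArg ULift.down h2
  revert h3
  show ((f x).down = !(f x).down) → False
  cases (f x).down <;> simp

end Pool.Agent.Results.MP_f0defb_al.NotInjective
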